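import Pool.Agent.helper53.ORE.Spec

/-!
Row ST1 of the project ore (MP_561ff4): one step of Witt's theorem in characteristic two.
-/

set_option autoImplicit false

namespace Pool.Agent.ORE

open Module Pool.Agent.GS

theorem ST1 (mid : MID_stmt) : ST1_stmt := by
  intro F V _ _ _ _ _ Q h2 hN hn x v w hv hw hQ hB
  by_cases hvw : pb Q v w ≠ 0
  · refine ⟨rq Q (v + w), Subgroup.subset_closure ⟨v + w, rfl⟩, ?_, rq_swap h2 hQ hvw⟩
    have e : Q (v + w) ≠ 0 := by
      rw [Q_add, hQ, add2 h2, zero_add]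
      exact hvw
    refine rq_of_orth h2 e ?_
    rw [map_add, pb_symm Q x v, pb_symm Q x w, hB, add2 h2]
  · rw [not_not] at hvw
    obtain ⟨c, hcx, hcv, hcw, hQc⟩ := mid Q h2 hN hn x v w hv hw
    have hz : rq Q c v = v + (pb Q v c / Q c) • c := rq_apply h2 hQc v
    have hcv' : pb Q v c ≠ 0 := by rw [pb_symm]; exact hcv
    have hx1 : rq Q c x = x := rq_of_orth h2 hQc (by rw [pb_symm]; exact hcx)
    have hQz : Q (rq Q c v) = Q w := by rw [(rq_mem Q c).2, hQ]
    have hzw : pb Q (rq Q c v) w ≠ 0 := by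
      rw [hz, map_add, LinearMap.add_apply, hvw, zero_add, map_smul, LinearMap.smul_apply,
        smul_eq_mul]
      exact mul_ne_zero (div_ne_zero hcv' hQc) hcw
    have hzx : pb Q (rq Q c v) x = pb Q w x := by
      rw [hz, map_add, LinearMap.add_apply, map_smul, LinearMap.smul_apply, hcx, smul_zero,
        add_zero, hB]
    have e : Q (rq Q c v + w) ≠ 0 := by
      rw [Q_add, hQz, add2 h2, zero_add]
      exact hzw
    refine ⟨rq Q (rq Q c v + w) * rq Q c, (Subgroup.closure _).mul_mem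
      (Subgroup.subset_closure ⟨_, rfl⟩) (Subgroup.subset_closure ⟨_, rfl⟩), ?_, ?_⟩
    · rw [Equiv.Perm.mul_apply, hx1]
      refine rq_of_orth h2 e ?_
      rw [map_add, pb_symm Q x (rq Q c v), pb_symm Q x w, hzx, add2 h2]
    · rw [Equiv.Perm.mul_apply]
      exact rq_swap h2 hQz hzw

end Pool.Agent.ORE
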